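import Pool.Agent.H84.S2.Fin2
import Pool.Agent.H29.SF.X1Z

/-!
# MP_70ba79_ag, THEOREM S, part 2 (nodal curves): row X12 (curves of bounded degree, not of log general type)
-/

set_option autoImplicit false

namespace Pool.Agent.H29.S2

open MvPolynomial SC
open Pool.Agent.H84.SF
open Pool.Agent.H27.LV (ge deg poleOrder canDeg DegreeBound)
open Pool.Agent.H84.SM (cr dt dp)
open Pool.Agent.H84.SL (pd)
open Pool.Agent.H3.SF (Itg Bb BB Hm eu grd hes Sfc Crd Crf Prm)
open Pool.Agent.H17.SD (Prj Smo HRel)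
open Pool.Agent.H3.S2
open Pool.Agent.H84.S2
open Pool.Agent.H29.SF

theorem pf_X12 (hP1Z : T_P1Z) (hFL2 : T_FL2) : T_X12 := by
  intro k F σ _ _ _ _ _ _ X u θ dd J δ j0 c0 c hS m GP sg S2 hm hCv e0
  have hF := hFL2 k F σ X u θ dd J δ j0 c0 c hS m GP sg S2 hm hCv
  choose! N Ψ h0 hh hΨ using hF
  have hId : HId (RingHom.ker (aeval X : MvPolynomial σ k →ₐ[k] F)) := fun f hf d =>
    RingHom.mem_ker.2 (comp_zero X u dd hS.prj.Xeu X (fun _ h => h) f (RingHom.mem_ker.1 hf) d)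
  have hmem : ∀ I ∈ Finset.Icc 1 e0 ×ˢ Finset.range (m * e0 + 1), 1 ≤ I.1 := by
    intro I hI
    exact (Finset.mem_Icc.1 (Finset.mem_product.1 hI).1).1
  refine ⟨∑ I ∈ Finset.Icc 1 e0 ×ˢ Finset.range (m * e0 + 1), N I.1 I.2,
    ∏ I ∈ Finset.Icc 1 e0 ×ˢ Finset.range (m * e0 + 1), Ψ I.1 I.2, ?_, ?_, ?_⟩
  · exact Finset.prod_ne_zero_iff.2 fun I hI => h0 I.1 I.2 (hmem I hI)
  · exact IsHomogeneous.prod _ _ _ fun I hI => hh I.1 I.2 (hmem I hI)
  · intro K _ _ _ htr D hD z S hPr hCrv hdeg hneg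
    obtain ⟨p, t, y, c1, a, hy, hc, hx, he, hpd, hpe, hp0, hG, hI⟩ :=
      hP1Z k σ _ hId GP m (by omega) hCv.hom K htr D hD z S hPr hCrv hneg
    have ha : a ≤ m * e0 := by
      have h1 := natDegree_aeval_le GP m (deg k z) hCv.hom p hpd
      rw [hG, Polynomial.natDegree_C_mul_X_pow a c1 hc] at h1
      exact h1.trans (Nat.mul_le_mul_left m hdeg)
    have hI2 : (deg k z, a) ∈ Finset.Icc 1 e0 ×ˢ Finset.range (m * e0 + 1) :=
      Finset.mem_product.2 ⟨Finset.mem_Icc.2 ⟨he, hdeg⟩, Finset.mem_range.2 (by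
        show a < m * e0 + 1
        omega)⟩
    have h1 := hΨ (deg k z) a he p c1 hc hpd hpe hp0
      (fun f hf => hI f (RingHom.mem_ker.2 hf)) hG
    have h2 : aeval (lin c z) (Ψ (deg k z) a) = 0 := by
      have h3 : lin c z = fun l => y * Polynomial.aeval t (lin c p l) := by
        funext l
        have h4 : z = fun i => y * Polynomial.aeval t (p i) := funext hx
        rw [← lin_map c (Polynomial.aeval t) p l, ← lin_mul, ← h4]
      have h4 : aeval (fun l => Polynomial.aeval t (lin c p l)) (Ψ (deg k z) a) =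
          Polynomial.aeval t (aeval (lin c p) (Ψ (deg k z) a)) := by
        rw [← comp_aeval_apply]
      rw [h3, aeval_mul_hom _ _ (hh _ _ he), h4, h1, map_zero, mul_zero]
    rw [map_prod]
    exact Finset.prod_eq_zero hI2 h2

end Pool.Agent.H29.S2
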